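import Pool.Agent.SpM.Final
import Pool.Agent.SpM.Comb
import Pool.Agent.SpM.Digits
import Pool.Agent.SpM.Loc
import Pool.Agent.SpM.ZZ
import Pool.Agent.SpM.SixPts
import Pool.Agent.SpM.NonSpec
import Pool.Agent.SpM.HB
import Pool.Agent.SpM.Meas
import Pool.Agent.SpM.SA
import Pool.Agent.SpM.Pars
import Pool.Agent.SpM.SBAtt
import Pool.Agent.SpM.Sep

/-!
# MP_a3bfa4_an: a spectral self-affine measure with strong separation and no real Hadamard dual

There are an expanding integer matrix `R` and a finite digit set `B ⊂ ℤ^5` such that the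
self-affine measure `μ(R,B)` is spectral and has no overlap (even `τ_b(T) ∩ τ_{b'}(T) = ∅`), but no
`L` makes `(R,B,L)` a Hadamard triple, not even a set `L ⊂ ℝ^5` of real frequencies and not even
after replacing `R` by another real matrix: `B` is not a spectral set.
-/

namespace Pool.Agent.Results.MP_a3bfa4_an.NoRealDual

open MeasureTheory SpM

/-- There are an expanding integer matrix `R` and a finite `B ⊂ ℤ^5`, `#B ≥ 2`, such that the
self-affine measure of `(R,B)` exists, is unique and spectral, an attractor `T` of `(R,B)` exists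
and for every attractor `T` the sets `τ_b(T)`, `b ∈ B`, are pairwise disjoint (so there is no
overlap), while for every real matrix `Q` (for example `Q = R`) and every finite set `L ⊂ ℝ^5`
(for example `L ⊂ ℤ^5`) the triple `(Q,B,L)` is not a Hadamard triple. -/
theorem result : ∃ (R : Matrix (Fin 5) (Fin 5) ℤ) (B : Finset (Fin 5 → ℤ)),
    Expanding R ∧ 2 ≤ B.card ∧
    (∃ μ : Measure (Fin 5 → ℝ), IsSelfAffine R B μ ∧ (∀ ν, IsSelfAffine R B ν → ν = μ) ∧
      IsSpectral μ ∧
      (∃ T, IsAttractor R B T) ∧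
      (∀ T, IsAttractor R B T → ∀ b ∈ B, ∀ b' ∈ B, b ≠ b' →
        Disjoint (tau R b '' T) (tau R b' '' T) ∧
        μ (tau R b '' T ∩ tau R b' '' T) = 0)) ∧
    (∀ (Q : Matrix (Fin 5) (Fin 5) ℝ) (L : Finset (Fin 5 → ℝ)), ¬ IsHadamardTriple Q B L) := by
  have hgood := p_GOOD p_CARD p_MODS
  have hsa := p_SA p_EXT
  obtain ⟨N, K1, K2, hK1, hK2, hns⟩ := p_NONSPEC hgood (p_FTC p_CARD p_MODS) p_FTB p_LOC p_Z
    p_S1 p_S2 p_CNT p_PACK
  have hG := hgood N K1 K2 hK1 hK2
  generalize nn K1 K2 = n at hG hns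
  generalize Cs N K1 K2 = C at hG hns
  have hr : ∀ i, 2 ≤ rr n i := fun i => by
    have := hG.pos i
    simp only [rr]
    omega
  have hcard : (BB n C).card = ∏ i, n i := by
    rw [(p_FTB _ _ hG).1, hG.card]
  have h6 : 6 ∣ ∏ i, n i := ⟨C.card, by rw [← hG.card, mul_comm]⟩
  have hpos : 0 < ∏ i, n i := Finset.prod_pos fun i _ => hG.pos i
  have hB2 : 2 ≤ (BB n C).card := by
    rw [hcard]
    have := Nat.le_of_dvd hpos h6
    omega
  have hBne : (BB n C).Nonempty := by
    rw [← Finset.card_pos]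
    omega
  obtain ⟨ν, hν, huni, Λ, hΛ, b, hb⟩ := main_measure (p_HB p_EXT) p_MEAS hsa
    (p_UNIQ p_EXT hsa) p_TRANS p_PARS (p_SB p_S3) p_FTB p_FTD n C hG
  refine ⟨dg (rr n), BB n C, expanding_dg _ hr, hB2,
    ⟨ν, (isSelfAffine_dg _ hr _ _).mpr hν, ?_, ?_, ?_, ?_⟩, ?_⟩
  · intro ν' h'
    exact huni ν' ((isSelfAffine_dg _ hr _ _).mp h')
  · refine ⟨Λ, hΛ, b, fun l => ?_⟩
    refine (hb l).trans (Filter.Eventually.of_forall fun x => ?_)
    exact ee_eq _
  · obtain ⟨T, hT⟩ := p_ATT (rr n) (BB n C) hr hBne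
    exact ⟨T, (isAttractor_dg _ hr _ _).mpr hT⟩
  · intro T hT b hb b' hb' hne
    have h := p_SEP n C hG T ((isAttractor_dg _ hr _ _).mp hT) b hb b' hb' hne
    rw [tau_dg _ hr, tau_dg _ hr]
    refine ⟨h, ?_⟩
    rw [h.inter_eq, measure_empty]
  · intro Q L hL
    obtain ⟨Λ', hc, ho⟩ := hadamard_orth Q _ hBne L hL
    exact absurd hc (hns Λ' ho).ne

end Pool.Agent.Results.MP_a3bfa4_an.NoRealDual
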